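import Pool.Agent.Helper99.PG.Goals

/-!
PROJECT C2, target (a), packet PG-SA: substitution in all channels but one.
-/

namespace Pool.Agent.Helper46.PG

open Pool.Agent.Helper36.SC Pool.Agent.Helper37.Arb Pool.Agent.Helper52.C2
  Pool.Agent.Helper99.PG
open scoped Classical

theorem pos_congr {J : Type} [Fintype J] [iJ : DecidableEq J] (Φ : (J → Tg) → LaurentPolynomial ℝ)
    (K K' : J → Prop) (i1 : DecidablePred K) (i2 : DecidablePred K') (a a' : J → Tg)
    (hK : K = K') (ha : a = a') (h : @Pos J _ iJ Φ K i1 a) : @Pos J _ iJ Φ K' i2 a' := by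
  subst hK
  subst ha
  have h1 : i1 = i2 := Subsingleton.elim _ _
  subst h1
  exact h

theorem substAll : GoalSubstAll := by
  intro hSub hP1 hC hO hN J _ iJ Φ hA hS hPos k₀ a ha
  have hU : (U 0).Nonneg := hN.2 0 le_rfl
  have key : ∀ s : Finset J, k₀ ∉ s →
      (∀ l, (if l ∈ s then a l else U 0 : Tg).Nonneg) ∧
      @Pos J _ iJ Φ (fun l => l ∉ s) (fun _ => inferInstance)
        (fun l => if l ∈ s then a l else U 0) := by
    intro s
    induction s using Finset.induction_on with
    | empty =>
      intro _
      refine ⟨fun l => by simpa using hU, ?_⟩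
      refine pos_congr Φ _ _ _ _ _ _ ?_ ?_ hPos
      · funext l
        simp
      · funext l
        simp
    | insert k s hk ih =>
      intro hk₀
      rw [Finset.mem_insert, not_or] at hk₀
      obtain ⟨ih1, ih2⟩ := ih hk₀.2
      have hne : ∀ l, l ∈ s → l ≠ k₀ := fun l hl h => hk₀.2 (h ▸ hl)
      refine ⟨?_, ?_⟩
      · intro l
        split_ifs with h
        · rw [Finset.mem_insert] at h
          rcases h with h | h
          · subst h
            exact (ha l (Ne.symm hk₀.1)).nonneg
          · exact (ha l (hne l h)).nonneg
        · exact hU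
      · have h1 := hSub J Φ hA hS (fun l => l ∉ s) (fun l => if l ∈ s then a l else U 0) k (a k)
          ih1 hk (ha k (Ne.symm hk₀.1)) ih2
        refine pos_congr Φ _ _ _ _ _ _ ?_ ?_ h1
        · funext l
          simp only [Finset.mem_insert, not_or, eq_iff_iff]
          exact And.comm
        · funext l
          by_cases hl : l = k
          · subst hl
            simp
          · rw [Function.update_of_ne hl]
            simp [Finset.mem_insert, hl]
  obtain ⟨h1, h2⟩ := key (Finset.univ.erase k₀) (by simp)
  have h3 := hP1 hC hO J Φ _ _ k₀ hA (hS _ k₀ h1) (fun k => by simp) h2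
  have h4 : ∀ S : Tg, Function.update
      (fun l => if l ∈ Finset.univ.erase k₀ then a l else U 0) k₀ S = Function.update a k₀ S := by
    intro S
    funext l
    by_cases hl : l = k₀
    · subst hl
      simp
    · rw [Function.update_of_ne hl, Function.update_of_ne hl]
      simp [hl]
  have h5 : slot Φ (fun l => if l ∈ Finset.univ.erase k₀ then a l else U 0) k₀ = slot Φ a k₀ := by
    unfold slot
    simp only [h4]
  rw [← h5]
  exact h3

end Pool.Agent.Helper46.PG
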